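import Pool.Agent.H11.LGR.Targets

/-! # Row DMN: the localization at a minimal prime -/

set_option autoImplicit false

open MvPolynomial Pool.Agent.H87.CLG Pool.Agent.H11.LGR

namespace Pool.Agent.H5.LGR

lemma exists_mul_min {R : Type} [CommRing R] (I P : Ideal R) (hI : I.IsRadical)
    (hP : P ∈ I.minimalPrimes) (r : R) (hr : r ∈ P) : ∃ t : R, t ∉ P ∧ t * r ∈ I := by
  have hPp : P.IsPrime := hP.1.1
  by_contra hno
  push Not at hno
  have hd : Disjoint (I : Set R) ((P.primeCompl ⊔ Submonoid.powers r : Submonoid R) : Set R) := by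
    rw [Set.disjoint_left]
    intro z hz hzW
    obtain ⟨t, ht, y, ⟨k, rfl⟩, rfl⟩ := Submonoid.mem_sup.1 hzW
    refine hno t ht (hI ⟨k + 1, ?_⟩)
    have : (t * r) ^ (k + 1) = (t ^ k * r) * (t * r ^ k) := by ring
    rw [this]
    exact I.mul_mem_left _ hz
  obtain ⟨Q, hQ, hIQ, hQW⟩ := Ideal.exists_le_prime_disjoint I _ hd
  have hQP : Q ≤ P := by
    intro x hx
    by_contra hxP
    exact Set.disjoint_left.1 hQW hx
      ((le_sup_left : P.primeCompl ≤ P.primeCompl ⊔ Submonoid.powers r) hxP)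
  have hPQ : P ≤ Q := hP.2 ⟨hQ, hIQ⟩ hQP
  exact Set.disjoint_left.1 hQW (hPQ hr)
    ((le_sup_right : Submonoid.powers r ≤ P.primeCompl ⊔ Submonoid.powers r)
      (Submonoid.mem_powers r))

theorem pf_DMN : T_DMN := by
  intro R M S Γ _ _ _ _ _ n A L e hL hrad hdom P hP γ m
  have hPp : P.IsPrime := hP.1.1
  let U : Submodule R M :=
    { carrier := {m | ∃ t : R, t ∉ P ∧ t • m ∈ L}
      add_mem' := by
        rintro a b ⟨t, ht, hta⟩ ⟨s, hs, hsb⟩
        refine ⟨t * s, fun h => (hPp.mem_or_mem h).elim ht hs, ?_⟩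
        rw [smul_add]
        refine L.add_mem ?_ ?_
        · rw [mul_comm, mul_smul]
          exact L.smul_mem _ hta
        · rw [mul_smul]
          exact L.smul_mem _ hsb
      zero_mem' := ⟨1, fun h => hPp.ne_top ((Ideal.eq_top_iff_one P).2 h), by
        rw [smul_zero]
        exact L.zero_mem⟩
      smul_mem' := by
        rintro c x ⟨t, ht, htx⟩
        refine ⟨t, ht, ?_⟩
        rw [smul_comm]
        exact L.smul_mem c htx }
  have hU : ∀ x, x ∈ U ↔ ∃ t : R, t ∉ P ∧ t • x ∈ L := fun x => Iff.rfl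
  have key := hdom P U hPp ?_ ?_ ?_ γ m
  · exact (hU _).1 key
  · intro γ x hx
    obtain ⟨t, ht, htx⟩ := (hU x).1 hx
    refine (hU _).2 ⟨t, ht, ?_⟩
    rw [← map_smul]
    exact hL.r γ _ htx
  · intro r hr x
    obtain ⟨t, ht, htr⟩ := exists_mul_min (ann L) P hrad hP r hr
    refine (hU _).2 ⟨t, ht, ?_⟩
    rw [smul_smul]
    exact htr x
  · intro r x hrx
    by_cases hr : r ∈ P
    · exact Or.inl hr
    · right
      obtain ⟨t, ht, htx⟩ := (hU _).1 hrx
      refine (hU x).2 ⟨t * r, fun h => (hPp.mem_or_mem h).elim ht hr, ?_⟩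
      rw [mul_smul]
      exact htx

end Pool.Agent.H5.LGR
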