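import Pool.Agent.H11.LGR.Targets

/-! # Row FRB: the radical of the annihilator in characteristic p -/

set_option autoImplicit false

open MvPolynomial Pool.Agent.H87.CLG Pool.Agent.H11.LGR

namespace Pool.Agent.H5.LGR

theorem pf_FRB : T_FRB := by
  intro R M S Γ _ _ _ _ _ n A L p hSI hA hp hPT
  rcases subsingleton_or_nontrivial (R ⧸ ann L) with hs | hn
  · refine ⟨0, fun r _ => ?_⟩
    have h : ann L = ⊤ := Ideal.Quotient.subsingleton_iff.1 hs
    rw [h]
    exact Submodule.mem_top
  · have hpK : ((p : ℕ) : R ⧸ ann L) = 0 := by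
      have h : (p : R) ∈ ann L := fun m => hPT m
      have h2 := (Ideal.Quotient.eq_zero_iff_mem).2 h
      rwa [map_natCast] at h2
    have hc : CharP (R ⧸ ann L) p := (CharP.charP_iff_prime_eq_zero hp).2 hpK
    have hf : Fact p.Prime := ⟨hp⟩
    let c : ℕ → Ideal R := fun t =>
      RingHom.ker ((iterateFrobenius (R ⧸ ann L) p t).comp (Ideal.Quotient.mk (ann L)))
    have hmem : ∀ t r, r ∈ c t ↔ r ^ p ^ t ∈ ann L := by
      intro t r
      rw [RingHom.mem_ker, RingHom.comp_apply, iterateFrobenius_def, ← map_pow,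
        Ideal.Quotient.eq_zero_iff_mem]
    have hmono : Monotone c := by
      intro s t hst r hr
      rw [hmem] at hr ⊢
      have e : p ^ t = p ^ s * p ^ (t - s) := by rw [← pow_add, Nat.add_sub_cancel' hst]
      rw [e, pow_mul]
      exact Ideal.pow_mem_of_mem _ hr _ (pow_pos hp.pos _)
    obtain ⟨N, hN⟩ := hA c hmono (fun t σ r hr => by
      rw [hmem] at hr ⊢
      rw [← map_pow]
      exact hSI σ _ hr)
    refine ⟨N, fun r hr => ?_⟩
    obtain ⟨k, hk⟩ := hr
    have h1 : r ∈ c k := by
      rw [hmem]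
      have e : p ^ k = k + (p ^ k - k) := (Nat.add_sub_cancel' (Nat.lt_pow_self hp.one_lt).le).symm
      rw [e, pow_add]
      exact (ann L).mul_mem_right _ hk
    have h2 : r ∈ c (max k N) := hmono (le_max_left _ _) h1
    rw [hN _ (le_max_right _ _), hmem] at h2
    exact h2

end Pool.Agent.H5.LGR
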