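import Pool.Agent.H11.LGR.Targets

/-! # Row UNV: the universal submodule -/

set_option autoImplicit false

open MvPolynomial Pool.Agent.H87.CLG Pool.Agent.H11.LGR

namespace Pool.Agent.H5.LGR

/-- substitution in vectors -/
noncomputable def shv {n : ℕ} (σ : ℕ → ℕ) (f : Fin n → PR (LL n)) : Fin n → PR (LL n) :=
  fun c => sh σ (f c)

lemma shv_sub {n : ℕ} (σ : ℕ → ℕ) (f g : Fin n → PR (LL n)) :
    shv σ (f - g) = shv σ f - shv σ g := by
  funext c
  exact map_sub (sh σ) (f c) (g c)

lemma shv_mt {n : ℕ} (σ : ℕ → ℕ) (i : ℕ) (b : Bool) (f : Fin n → PR (LL n)) :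
    shv σ ((mt i b).mulVec f) = (mt (σ i) b).mulVec (shv σ f) := by
  funext c
  show sh σ (∑ j, (mt i b) c j * f j) = ∑ j, (mt (σ i) b) c j * sh σ (f j)
  rw [map_sum]
  refine Finset.sum_congr rfl fun j _ => ?_
  rw [map_mul]
  congr 1
  show rename (Prod.map σ id) (X (i, (b, c, j))) = X (σ i, (b, c, j))
  rw [rename_X]
  rfl

lemma shv_ev {n : ℕ} (σ : ℕ → ℕ) (f : Fin n → PR (LL n)) : ∀ w : List (ℕ × Bool),
    shv σ (ev w f) = ev (w.map fun x => (σ x.1, x.2)) (shv σ f)
  | [] => rfl
  | x :: w => by
    show shv σ ((mt x.1 x.2).mulVec (ev w f)) = (mt (σ x.1) x.2).mulVec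
      (ev (w.map fun x => (σ x.1, x.2)) (shv σ f))
    rw [shv_mt, shv_ev σ f w]

lemma XF_map (σ : ℕ → ℕ) (x : FreeGroup ℕ) (hx : x ∈ XF) : FreeGroup.map σ x ∈ XF := by
  rcases hx with rfl | ⟨g, i, rfl | rfl⟩
  · left
    exact map_one _
  · right
    refine ⟨FreeGroup.map σ g, σ i, Or.inl ?_⟩
    rw [map_mul, map_mul, map_inv, FreeGroup.map.of]
  · right
    refine ⟨FreeGroup.map σ g, σ i, Or.inr ?_⟩
    rw [map_mul, map_mul, map_inv, map_inv, FreeGroup.map.of]

theorem pf_UNV : T_UNV := by
  intro n ν
  refine ⟨sInf {K' | Adm ν n K'}, ⟨?_, ?_, ?_⟩, ?_, fun K' hK' => sInf_le hK'⟩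
  · intro i b f hf
    rw [Submodule.mem_sInf] at hf ⊢
    intro K' hK'
    exact hK'.act i b f (hf K' hK')
  · intro i b f
    rw [Submodule.mem_sInf]
    intro K' hK'
    exact hK'.inv i b f
  · intro l hl w hw f
    rw [Submodule.mem_sInf]
    intro K' hK'
    exact hK'.law l hl w hw f
  · intro π f hf
    rw [Submodule.mem_sInf] at hf ⊢
    intro K' hK'
    let K'' : Submodule (PR (LL n)) (Fin n → PR (LL n)) :=
      { carrier := {f | shv π f ∈ K'}
        add_mem' := by
          intro a b ha hb
          have h : shv π (a + b) = shv π a + shv π b := by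
            funext c
            exact map_add (sh π) (a c) (b c)
          show shv π (a + b) ∈ K'
          rw [h]
          exact K'.add_mem ha hb
        zero_mem' := by
          have h : shv π (0 : Fin n → PR (LL n)) = 0 := by
            funext c
            exact map_zero (sh π)
          show shv π (0 : Fin n → PR (LL n)) ∈ K'
          rw [h]
          exact K'.zero_mem
        smul_mem' := by
          intro r a ha
          have h : shv π (r • a) = sh π r • shv π a := by
            funext c
            exact map_mul (sh π) r (a c)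
          show shv π (r • a) ∈ K'
          rw [h]
          exact K'.smul_mem _ ha }
    have hmem : ∀ f, f ∈ K'' ↔ shv π f ∈ K' := fun f => Iff.rfl
    have hadm : Adm ν n K'' := by
      refine ⟨?_, ?_, ?_⟩
      · intro i b f hf
        rw [hmem] at hf ⊢
        rw [shv_mt]
        exact hK'.act _ b _ hf
      · intro i b f
        rw [hmem, shv_sub, shv_mt, shv_mt]
        exact hK'.inv _ b _
      · intro l hl w hw f
        rw [hmem, shv_sub, shv_ev]
        refine hK'.law (l.map (FreeGroup.map π)) ?_ _ ?_ _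
        · intro x hx
          obtain ⟨y, hy, rfl⟩ := List.mem_map.1 hx
          exact XF_map π y (hl y hy)
        · rw [List.length_map, ← map_list_prod, ← map_pow, ← hw]
          exact FreeGroup.map.mk.symm
    exact hf K'' hadm

end Pool.Agent.H5.LGR
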